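import Mathlib
import Pool.Agent.H31.RG.Base

set_option autoImplicit false

namespace Pool.Agent.H83.RG

open Pool.Agent.H31.RG
open Pool.Agent.Results.MP_e83726_nt.Gaps
open Finset Filter Asymptotics

lemma image_q (m : ℕ) : (Finset.Icc 3 (q m - 1)).filter Nat.Prime = (range m).image q := by
  ext p
  simp only [mem_filter, mem_Icc, mem_image, mem_range]
  have hqm := q_ge m
  constructor
  · rintro ⟨⟨h3, hp⟩, hpr⟩
    obtain ⟨i, rfl⟩ := q_surj p hpr (by omega)
    exact ⟨i, q_mono.lt_iff_lt.1 (by omega), rfl⟩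
  · rintro ⟨i, hi, rfl⟩
    have := q_mono hi
    exact ⟨⟨q_ge i, by omega⟩, q_prime i⟩

theorem stL : StL := by
  intro m
  rw [E, image_q, prod_image fun _ _ _ _ h => q_mono.injective h, HP]

lemma log_P (m : ℕ) : Real.log (P m) = Chebyshev.theta ((q m - 1 : ℕ) : ℝ) - Real.log 2 := by
  have hqm := q_ge m
  have e : (Finset.Icc 0 (q m - 1)).filter Nat.Prime =
      insert 2 ((Finset.Icc 3 (q m - 1)).filter Nat.Prime) := by
    ext p
    simp only [mem_filter, mem_Icc, mem_insert]
    constructor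
    · rintro ⟨⟨-, hp⟩, hpr⟩
      have := hpr.two_le
      by_cases h2 : p = 2
      · exact Or.inl h2
      · exact Or.inr ⟨⟨by omega, hp⟩, hpr⟩
    · rintro (rfl | ⟨⟨h3, hp⟩, hpr⟩)
      · exact ⟨⟨by omega, by omega⟩, Nat.prime_two⟩
      · exact ⟨⟨by omega, hp⟩, hpr⟩
  rw [Chebyshev.theta_eq_sum_Icc, Nat.floor_natCast, e, sum_insert (by simp), image_q,
    sum_image fun _ _ _ _ h => q_mono.injective h, P]
  push_cast
  rw [Real.log_prod fun i _ => by
    have := q_ge i
    have : q i ≠ 0 := by omega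
    exact_mod_cast this]
  ring

lemma ev_theta : ∃ N : ℕ, ∀ n : ℕ, N ≤ n →
    Real.log 2 / 2 * n ≤ Chebyshev.theta (n : ℝ) - Real.log 2 := by
  have h1 : (fun x : ℝ => √x * Real.log x) =o[atTop] fun x : ℝ => x := by
    have h := (isBigO_refl (fun x : ℝ => √x) atTop).mul_isLittleO
      (isLittleO_log_rpow_atTop (r := 1 / 2) (by norm_num))
    refine h.congr' (EventuallyEq.refl _ _) ?_
    filter_upwards [eventually_ge_atTop 0] with x hx
    rw [← Real.sqrt_eq_rpow, Real.mul_self_sqrt hx]
  have hl2 : 0 < Real.log 2 := Real.log_pos (by norm_num)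
  have h2 := h1.bound (c := Real.log 2 / 10) (by positivity)
  have h3 := tendsto_natCast_atTop_atTop (R := ℝ) |>.eventually h2
  obtain ⟨N, hN⟩ := eventually_atTop.1 h3
  refine ⟨max N 2, fun n hn => ?_⟩
  have hn2 : 2 ≤ n := le_trans (le_max_right _ _) hn
  have hnN := hN n (le_trans (le_max_left _ _) hn)
  have hn2' : (2 : ℝ) ≤ n := by exact_mod_cast hn2
  have hlog : Real.log 2 ≤ Real.log n := Real.log_le_log (by norm_num) hn2'
  have hs : 1 ≤ √(n : ℝ) := by
    rw [Real.one_le_sqrt]
    linarith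
  have hsl : 0 ≤ √(n : ℝ) * Real.log n := by positivity
  rw [Real.norm_of_nonneg hsl, Real.norm_of_nonneg (by positivity)] at hnN
  have hth := Chebyshev.theta_ge n
  have hl1 : Real.log (n + 1) ≤ 2 * Real.log n := by
    have : Real.log ((n : ℝ) + 1) ≤ Real.log ((n : ℝ) ^ 2) :=
      Real.log_le_log (by positivity) (by nlinarith)
    rwa [Real.log_pow] at this
  have hll : Real.log n ≤ √(n : ℝ) * Real.log n := by
    have : 0 ≤ Real.log n := by linarith
    nlinarith
  nlinarith

theorem stB : StB := by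
  obtain ⟨N, hN⟩ := ev_theta
  have hl2 : 0 < Real.log 2 := Real.log_pos (by norm_num)
  refine ⟨min (Real.log 2 / 4) (1 / (N + 1)), Real.log 4, by positivity,
    Real.log_pos (by norm_num), fun m hm => ⟨?_, ?_⟩⟩
  · have hqm := q_ge m
    have hq0 : (0 : ℝ) ≤ q m := by positivity
    by_cases hx : N ≤ q m - 1
    · have h := hN _ hx
      rw [← log_P] at h
      have h2 : (q m : ℝ) ≤ 2 * ((q m - 1 : ℕ) : ℝ) := by
        have : q m ≤ 2 * (q m - 1) := by omega
        exact_mod_cast this
      calc min (Real.log 2 / 4) (1 / (N + 1)) * (q m : ℝ) ≤ Real.log 2 / 4 * q m :=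
            mul_le_mul_of_nonneg_right (min_le_left _ _) hq0
        _ ≤ Real.log 2 / 2 * ((q m - 1 : ℕ) : ℝ) := by nlinarith
        _ ≤ _ := h
    · have hle : (q m : ℝ) ≤ N + 1 := by
        have : q m ≤ N + 1 := by omega
        exact_mod_cast this
      have h3 : 1 ≤ Real.log (P m) := by
        have h3P : (3 : ℝ) ≤ P m := by
          have h4 : P 1 ≤ P m := P_mono.monotone hm
          have h5 : P 1 = q 0 := by simp [P]
          have := q_ge 0
          have : 3 ≤ P m := by omega
          exact_mod_cast this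
        rw [Real.le_log_iff_exp_le (by linarith)]
        linarith [Real.exp_one_lt_d9]
      calc min (Real.log 2 / 4) (1 / (N + 1)) * (q m : ℝ) ≤ 1 / (N + 1) * q m :=
            mul_le_mul_of_nonneg_right (min_le_right _ _) hq0
        _ ≤ 1 := by
          rw [div_mul_eq_mul_div, one_mul, div_le_one (by positivity)]
          exact hle
        _ ≤ _ := h3
  · rw [log_P]
    have h := Chebyshev.theta_le_log4_mul_x (x := ((q m - 1 : ℕ) : ℝ)) (by positivity)
    have h2 : ((q m - 1 : ℕ) : ℝ) ≤ q m := by exact_mod_cast Nat.sub_le _ _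
    have h4 : 0 < Real.log 4 := Real.log_pos (by norm_num)
    nlinarith

end Pool.Agent.H83.RG
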